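import Pool.Agent.helper63.Dg4.Spec

set_option autoImplicit false

namespace Pool.Agent.helper63.Dg4

open Encodable Pool.Agent.helper63.Diag

theorem DAX_s1 (X : ℕ → ℕ) (κ B : ℕ) :
    S1 X (fun p : ℕ × ℕ => ∃ i, B ≤ i ∧ col i = κ ∧ el i = p.1 ∧ X i = p.2 + 1) := by
  have h : S1 X (fun q : (ℕ × ℕ) × ℕ =>
      B ≤ q.2 ∧ col q.2 = κ ∧ el q.2 = q.1.1 ∧ (res X (q.2 + 1)).getD q.2 0 = q.1.2 + 1) := by
    refine S1.oracle (X := X) (R := fun (l : List ℕ) (q : (ℕ × ℕ) × ℕ) =>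
        B ≤ q.2 ∧ col q.2 = κ ∧ el q.2 = q.1.1 ∧ l.getD q.2 0 = q.1.2 + 1)
      (f := fun q : (ℕ × ℕ) × ℕ => q.2 + 1) ?_ (Primrec.succ.comp Primrec.snd)
    have hi : Primrec (fun q : List ℕ × ((ℕ × ℕ) × ℕ) => q.2.2) :=
      Primrec.snd.comp Primrec.snd
    have hx : Primrec (fun q : List ℕ × ((ℕ × ℕ) × ℕ) => q.2.1.1) :=
      Primrec.fst.comp (Primrec.fst.comp Primrec.snd)
    have hz : Primrec (fun q : List ℕ × ((ℕ × ℕ) × ℕ) => q.2.1.2) :=
      Primrec.snd.comp (Primrec.fst.comp Primrec.snd)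
    have hcol : Primrec col := Primrec.fst.comp Primrec.unpair
    have hel : Primrec el :=
      Primrec.fst.comp (Primrec.unpair.comp (Primrec.snd.comp Primrec.unpair))
    refine PrimrecPred.and ?_ (PrimrecPred.and ?_ (PrimrecPred.and ?_ ?_))
    · exact Primrec.nat_le.comp (Primrec.const B) hi
    · exact Primrec.eq.comp (hcol.comp hi) (Primrec.const κ)
    · exact Primrec.eq.comp (hel.comp hi) hx
    · exact Primrec.eq.comp ((Primrec.list_getD 0).comp Primrec.fst hi) (Primrec.succ.comp hz)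
  have h2 := S1.ex (A := fun (p : ℕ × ℕ) (i : ℕ) =>
    B ≤ i ∧ col i = κ ∧ el i = p.1 ∧ (res X (i + 1)).getD i 0 = p.2 + 1) h
  refine h2.of_iff fun p => ?_
  constructor
  · rintro ⟨i, h1, h3, h4, h5⟩
    rw [res_getD X (Nat.lt_succ_self i)] at h5
    exact ⟨i, h1, h3, h4, h5⟩
  · rintro ⟨i, h1, h3, h4, h5⟩
    refine ⟨i, h1, h3, h4, ?_⟩
    rw [res_getD X (Nat.lt_succ_self i)]
    exact h5

theorem DAX : DAX_stmt := by
  intro s X hsat hle htask m κ hκ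
  obtain ⟨hσ, v, hv, hok⟩ := hsat m
  set B := (s m).σ.length with hB
  have htot : ∀ x, ∃ z, ∃ i, B ≤ i ∧ col i = κ ∧ el i = x ∧ X i = z + 1 := by
    intro x
    obtain ⟨m', hm', h⟩ := htask κ x B m
    have hact : (s m').ab.getD κ 0 = 2 := by
      have := ((hle m m' hm').1 κ (by rw [hκ]; decide)).1
      rw [this, hκ]
    obtain ⟨i, ⟨hi1, hi2⟩, ⟨hi3, hi4⟩, hi5⟩ := h hact
    have hXi : (s m').σ.getD i 0 = X i := by
      rw [← (hsat m').1]
      exact res_getD X hi2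
    rw [hXi] at hi5
    exact ⟨X i - 1, i, hi1, hi3, hi4, by omega⟩
  obtain ⟨g, hg1, hg2⟩ := S1.unif (DAX_s1 X κ B) htot
  have hc : ComputableFrom g X := RecursiveIn.iff_nat.2 (RI.of_s1 hg2)
  refine ⟨g, hc, fun x hE => ?_⟩
  obtain ⟨i, h1, h2, h3, h4⟩ := hg1 x
  have h2' : col i = κ := h2
  have h3' : el i = x := h3
  have h4' : X i = g x + 1 := h4
  have h5 := (hok i h1).2
  rw [h2', h3', h4'] at h5
  rcases h5 hκ with h6 | h6
  · omega
  · rw [Nat.add_sub_cancel] at h6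
    have h7 := (s m).inv v hv κ hκ (g x) x hE
    exact (s m).fl_ne v hv κ hκ x (h6.symm.trans h7)

end Pool.Agent.helper63.Dg4
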